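import Pool.Agent.Lib.MP_2cea55_ag.GG

set_option autoImplicit false

open Pool.Agent.Lib.MP_2cea55_ag MvPolynomial

/-- A finite Gorenstein subscheme of affine 4-space that lies, near each of its points, on a
hypersurface which is smooth there or has Hessian of rank at least three is smoothable. -/
theorem Pool.Agent.Results.MP_2cea55_ag.Hessian3.result (k : Type) [Field k] [IsAlgClosed k]
    [CharZero k] (d : ℕ) (h1 : 1 ≤ d) (I : Ideal (MvPolynomial (Fin 4) k)) (hI : I ∈ Gor k d)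
    (h : ∀ p : Fin 4 → k, (∀ f ∈ I, eval p f = 0) → ∃ f ∈ I, (∃ i, eval p (pderiv i f) ≠ 0) ∨
      3 ≤ (Matrix.of fun i j => eval p (pderiv i (pderiv j f))).rank)
    (Z : Set (Ideal (MvPolynomial (Fin 4) k))) (hZ : ZClosed k d Z)
    (hp : ∀ (J : Ideal (MvPolynomial (Fin 4) k)) (p : Fin d → Fin 4 → k), p.Injective →
      (∀ f, f ∈ J ↔ ∀ i, eval (p i) f = 0) → J ∈ Z) : I ∈ Z :=
  Gs.hess3 h1 hI h hZ fun J ⟨p, a, b⟩ => hp J p a b
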