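import Pool.Agent.Lib.MP_2cea55_ag.GG

set_option autoImplicit false

open Pool.Agent.Lib.MP_2cea55_ag

/-- The Gorenstein locus of the Hilbert scheme of d points of affine 4-space is irreducible for
d at most 21: it is nonempty, and of two Zariski closed sets covering it one contains it. -/
theorem Pool.Agent.Results.MP_2cea55_ag.Irreducible21.result (k : Type) [Field k] [IsAlgClosed k]
    [CharZero k] (d : ℕ) (h1 : 1 ≤ d) (h : d ≤ 21) : (Gor k d).Nonempty ∧
      ∀ A B : Set (Ideal (MvPolynomial (Fin 4) k)), ZClosed k d A → ZClosed k d B →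
        Gor k d ⊆ A ∪ B → Gor k d ⊆ A ∨ Gor k d ⊆ B :=
  Gs.irr21 h1 h
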