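import Pool.Agent.Lib.MP_2cea55_ag.Main

set_option autoImplicit false

open Pool.Agent.Lib.MP_2cea55_ag

/-- The Gorenstein locus of the Hilbert scheme of d points of affine 4-space is reducible for
d = 138 and d = 139: it is covered by two Zariski closed sets, neither of which contains it. -/
theorem Pool.Agent.Results.MP_2cea55_ag.Reducible138.result (k : Type) [Field k] [IsAlgClosed k]
    [CharZero k] (d : ℕ) (hd : d = 138 ∨ d = 139) :
    ∃ A B : Set (Ideal (MvPolynomial (Fin 4) k)), ZClosed k d A ∧ ZClosed k d B ∧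
      Gor k d ⊆ A ∪ B ∧ ¬Gor k d ⊆ A ∧ ¬Gor k d ⊆ B :=
  main d hd
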